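import Pool.Agent.Helper95.LN.Stmts
import Pool.Agent.Helper59.PN.PK

/-!
# Row PK4: packing of separated points, fourth powers

At most `125 (k + 1)^3` of the points lie within `(k + 1) d` (`pk_count`); summation by parts.
-/

set_option autoImplicit false

namespace Pool.Agent.Helper78.LN

open Pool.Agent.Helper95.PW Pool.Agent.Helper95.LN

theorem pk4_step (A : ℝ) (hA : 0 < A) :
    1 / A ^ 4 ≤ 4 / (A ^ 4 * (A + 1)) + 1 / (A + 1) ^ 4 := by
  have h1 : 4 / (A ^ 4 * (A + 1)) + 1 / (A + 1) ^ 4 - 1 / A ^ 4 =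
      (6 * A ^ 2 + 8 * A + 3) / (A ^ 4 * (A + 1) ^ 4) := by
    field_simp
    ring
  have h2 : 0 ≤ (6 * A ^ 2 + 8 * A + 3) / (A ^ 4 * (A + 1) ^ 4) := by positivity
  linarith

/-- summation by parts -/
theorem pk4_tel (t L : ℕ) : 1 / ((t : ℝ) + 1) ^ 4 ≤
    (∑ k ∈ Finset.range L, if t ≤ k then 4 / (((k : ℝ) + 1) ^ 4 * (((k : ℝ) + 1) + 1)) else 0) +
      1 / ((L : ℝ) + 1) ^ 4 := by
  induction L with
  | zero =>
    have h0 : (0 : ℝ) ≤ t := Nat.cast_nonneg t
    have h1 : (1 : ℝ) ≤ ((t : ℝ) + 1) ^ 4 := one_le_pow₀ (by linarith)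
    have h2 : 1 / ((t : ℝ) + 1) ^ 4 ≤ 1 := (div_le_one (by positivity)).2 h1
    simpa using h2
  | succ L ih =>
    rw [Finset.sum_range_succ]
    have hL : (0 : ℝ) ≤ L := Nat.cast_nonneg L
    have ec : ((L + 1 : ℕ) : ℝ) = (L : ℝ) + 1 := by push_cast; ring
    rw [ec]
    by_cases h : t ≤ L
    · rw [if_pos h]
      have e := pk4_step ((L : ℝ) + 1) (by positivity)
      linarith
    · rw [if_neg h]
      have h2 : (L : ℝ) + 1 ≤ t := by
        rw [← ec]
        exact_mod_cast (by omega : L + 1 ≤ t)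
      have h3 : 1 / ((t : ℝ) + 1) ^ 4 ≤ 1 / (((L : ℝ) + 1) + 1) ^ 4 :=
        one_div_le_one_div_of_le (by positivity)
          (pow_le_pow_left₀ (by positivity) (by linarith) 4)
      have h4 : 0 ≤ ∑ k ∈ Finset.range L,
          (if t ≤ k then 4 / (((k : ℝ) + 1) ^ 4 * (((k : ℝ) + 1) + 1)) else 0) :=
        Finset.sum_nonneg fun k _ => by split_ifs <;> positivity
      linarith

theorem pk4_sum (L : ℕ) :
    ∑ k ∈ Finset.range L, 500 / (((k : ℝ) + 1) * (((k : ℝ) + 1) + 1)) =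
      500 - 500 / ((L : ℝ) + 1) := by
  induction L with
  | zero => simp
  | succ L ih =>
    rw [Finset.sum_range_succ, ih]
    have hL : (0 : ℝ) ≤ L := Nat.cast_nonneg L
    have h1 : (L : ℝ) + 1 ≠ 0 := by positivity
    have h2 : (L : ℝ) + 1 + 1 ≠ 0 := by positivity
    push_cast
    field_simp
    ring

theorem PK4 : ST_PK4 := by
  refine ⟨16 * 501, by norm_num, ?_⟩
  intro M X d y hd hs
  have hM : (0 : ℝ) ≤ M := Nat.cast_nonneg M
  have s1 : ∑ j, (if d ≤ nr (y - X j) then 1 / nr (y - X j) ^ 4 else 0) ≤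
      ∑ j, 16 / d ^ 4 * (1 / ((⌊nr (y - X j) / d⌋₊ : ℝ) + 1) ^ 4) := by
    refine Finset.sum_le_sum fun j _ => ?_
    split_ifs with h
    · have hp : 0 < nr (y - X j) := by linarith
      have hf : (⌊nr (y - X j) / d⌋₊ : ℝ) ≤ nr (y - X j) / d :=
        Nat.floor_le (div_nonneg hp.le hd.le)
      have h1 : (⌊nr (y - X j) / d⌋₊ : ℝ) + 1 ≤ 2 * (nr (y - X j) / d) := by
        have : 1 ≤ nr (y - X j) / d := by
          rw [le_div_iff₀ hd]; linarith
        linarith
      have h2 : 1 / (2 * (nr (y - X j) / d)) ^ 4 ≤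
          1 / ((⌊nr (y - X j) / d⌋₊ : ℝ) + 1) ^ 4 :=
        one_div_le_one_div_of_le (by positivity)
          (pow_le_pow_left₀ (by positivity) h1 4)
      calc 1 / nr (y - X j) ^ 4 = 16 / d ^ 4 * (1 / (2 * (nr (y - X j) / d)) ^ 4) := by
            field_simp
            ring
        _ ≤ _ := mul_le_mul_of_nonneg_left h2 (by positivity)
    · positivity
  have s2 : ∑ j, (1 / ((⌊nr (y - X j) / d⌋₊ : ℝ) + 1) ^ 4) ≤ 501 := by
    calc ∑ j, (1 / ((⌊nr (y - X j) / d⌋₊ : ℝ) + 1) ^ 4)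
        ≤ ∑ j, ((∑ k ∈ Finset.range M, if ⌊nr (y - X j) / d⌋₊ ≤ k then
            4 / (((k : ℝ) + 1) ^ 4 * (((k : ℝ) + 1) + 1)) else 0) + 1 / ((M : ℝ) + 1) ^ 4) :=
          Finset.sum_le_sum fun j _ => pk4_tel _ M
      _ = (∑ k ∈ Finset.range M, ∑ j, if ⌊nr (y - X j) / d⌋₊ ≤ k then
            4 / (((k : ℝ) + 1) ^ 4 * (((k : ℝ) + 1) + 1)) else 0) +
            M * (1 / ((M : ℝ) + 1) ^ 4) := by
          rw [Finset.sum_add_distrib, Finset.sum_comm, Finset.sum_const, Finset.card_univ,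
            Fintype.card_fin, nsmul_eq_mul]
      _ ≤ (∑ k ∈ Finset.range M, 500 / (((k : ℝ) + 1) * (((k : ℝ) + 1) + 1))) + 1 := by
          refine add_le_add (Finset.sum_le_sum fun k hk => ?_) ?_
          · rw [← Finset.sum_filter, Finset.sum_const, nsmul_eq_mul]
            have hc := pk_count X d y hd hs k
              (Finset.univ.filter fun j => ⌊nr (y - X j) / d⌋₊ ≤ k) (by
                intro j hj
                have hj2 := (Finset.mem_filter.mp hj).2
                have h1 := Nat.lt_floor_add_one (nr (y - X j) / d)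
                have h2 : (⌊nr (y - X j) / d⌋₊ : ℝ) ≤ k := by exact_mod_cast hj2
                rw [← div_lt_iff₀ hd]
                linarith)
            have hk0 : (0 : ℝ) ≤ k := Nat.cast_nonneg k
            calc ((Finset.univ.filter fun j => ⌊nr (y - X j) / d⌋₊ ≤ k).card : ℝ) *
                  (4 / (((k : ℝ) + 1) ^ 4 * (((k : ℝ) + 1) + 1)))
                ≤ 125 * ((k : ℝ) + 1) ^ 3 * (4 / (((k : ℝ) + 1) ^ 4 * (((k : ℝ) + 1) + 1))) :=
                  mul_le_mul_of_nonneg_right hc (by positivity)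
              _ = 500 / (((k : ℝ) + 1) * (((k : ℝ) + 1) + 1)) := by
                  field_simp
                  ring
          · rw [mul_one_div, div_le_one (by positivity)]
            calc (M : ℝ) ≤ ((M : ℝ) + 1) ^ 1 := by rw [pow_one]; linarith
              _ ≤ ((M : ℝ) + 1) ^ 4 := pow_le_pow_right₀ (by linarith) (by norm_num)
      _ ≤ 501 := by
          rw [pk4_sum]
          have : 0 ≤ 500 / ((M : ℝ) + 1) := by positivity
          linarith
  calc ∑ j, (if d ≤ nr (y - X j) then 1 / nr (y - X j) ^ 4 else 0)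
      ≤ ∑ j, 16 / d ^ 4 * (1 / ((⌊nr (y - X j) / d⌋₊ : ℝ) + 1) ^ 4) := s1
    _ = 16 / d ^ 4 * ∑ j, (1 / ((⌊nr (y - X j) / d⌋₊ : ℝ) + 1) ^ 4) := by rw [Finset.mul_sum]
    _ ≤ 16 / d ^ 4 * 501 := mul_le_mul_of_nonneg_left s2 (by positivity)
    _ = 16 * 501 / d ^ 4 := by ring

end Pool.Agent.Helper78.LN
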